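import Pool.Agent.N95.HN.Lgt

/-!
MP_4dacf8_ag, Q1: Vojta's height inequality with truncated counting function, for all algebraic points
on the affine varieties over a function field with finite correspondences to generic pairs.

Let `F` be a function field of one variable over an algebraically closed field `k` of characteristic
`0`, the function field of a curve. Let `F0` be a subfield of `F` that is finitely generated over a
subfield `k0` of `k`. A *generic affine pair* `X` over `F` (`GenericPair F0 F`, in
`Pool/Agent/N111/GJ/Def.lean`), with `DefinedOver X`, defines the affine variety `U` over `F`, the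
complement of the hypersurfaces `F b = 0`, `b ∉ C`, in the intersection of a closed subset `V` of a
projective space, defined over `F0`, of dimension at most `m`, and of the hypersurfaces `F c = 0`,
`c ∈ C`, where the ratios of the coefficients of the forms `F a` over `F`, of degrees `d a`, to one of
them are, for all `a` together, algebraically independent over `F0`. Let `X.size` be the sum of all
the numbers `d a` and of the number of elements of `C`. The pairs need not be isotrivial, and `V` need
not be defined over `k`.

Let `M` be an affine variety over `F`, with function field `ℒ` and coordinates `u`. A *finite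
correspondence* `M ← W → U` (`IsCorr X u x`, in `Pool/Agent/N111/GJ/Stmt.lean`) is given by a finite
extension `ℒ'` of `ℒ`, the function field of `W`, and a point `x` of `U` with coordinates in `ℒ'` such
that `W → M` is finite, where `W` is the closure of the graph in the product of `M` and `U`: the
values at `x` of the functions `x ^ I / F b` on `U` are integral over the ring of functions on `M`.
`FibresLE X u x r`: the geometric fibres of `W → M` have at most `r` points; if `M` is normal, `r` can
be the degree `[ℒ' : ℒ]` of `W → M` (part (4)). `QuasiFinite X u x`: all the (scheme-theoretic) fibres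
of `W → U` are finite. For instance, `M` can be the quotient of an affine variety `W`, quasi-finite
over `U`, by a finite group of order at most `r`, such as `(P^n ∖ ⋃ g D) / G`, where `D` is a generic
hypersurface over `F`, and `G` is a finite group of automorphisms of `P^n`; or any normal variety
which is the image of such a `W` under a finite map of degree at most `r`.

`L` is any finite extension of `F`, and `f` any point of `M` (or of a closed subvariety) over `L`, not
in `G = 0`. `pht k (1, f)` is the height of `f` in the projective space that contains `M`, with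
respect to `O(1)` and to `L`; it is `[L : F]` times the height relative to `F`. `canDeg k L` is
`2 g(L) - 2`. `poles k f` is the set of the places of `L` at which some of the coordinates of `f` are
not regular, the places where the point meets the boundary of `M`, so its number of elements is the
truncated counting function; for another model of `M` with its boundary over the curve, it changes by
at most a multiple of `[L : F]`. So `Vojta k F u G` is the height inequality of Q1, for all algebraic
points not in `G = 0`, with the height with respect to an ample divisor of a compactification of `M`.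
-/

set_option autoImplicit false
set_option linter.overlappingInstances false

namespace Pool.Agent.Results.MP_4dacf8_ag.FiniteCorrespondences

open FF Pool.Agent.W603.LV Pool.Agent.W603.PV
open Pool.Agent.N111.GJ (GenericPair IsSub)
open Pool.Agent.N111.GJ.FC (IsCorr GenericallyFiniteOn LogGeneral)
open Pool.Agent.N95.HN (DefinedOver poles)

/-- The field `F0` is finitely generated over `k0`. -/
def FinGen (k0 F0 : Type) [Field k0] [Field F0] [Algebra k0 F0] : Prop :=
  ∃ S : Finset F0, IntermediateField.adjoin k0 (S : Set F0) = ⊤

section

variable {F0 F : Type} [Field F0] [Field F] [Algebra F0 F] (X : GenericPair F0 F) {ℒ : Type}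
  [Field ℒ] [Algebra F ℒ] {N : ℕ} (u : Fin N → ℒ) {ℒ' : Type} [Field ℒ'] [Algebra F ℒ']
  [Algebra ℒ ℒ'] (x : Fin (X.n + 1) → ℒ')

/-- The geometric fibres of `W → M` have at most `r` points. -/
def FibresLE (r : ℕ) : Prop :=
  ∀ s : Fin N → AlgebraicClosure F,
    {φ : Pool.Agent.N111.GJ.FC.ring X u x →ₐ[F] AlgebraicClosure F |
      Pool.Agent.N111.GJ.FC.Over X u x φ s}.encard ≤ r

/-- All the fibres of `W → U` are finite: the coordinates `u` of all points `φ` of `W`, over all
extensions `E` of `F`, are algebraic over the field generated by the values of the functions on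
`U`. -/
def QuasiFinite : Prop :=
  ∀ (E : Type) [Field E] [Algebra F E] (φ : Pool.Agent.N111.GJ.FC.ring X u x →ₐ[F] E) (j : Fin N)
    (y : Pool.Agent.N111.GJ.FC.ring X u x), (y : ℒ') = algebraMap ℒ ℒ' (u j) →
    IsAlgebraic (IntermediateField.adjoin F (Pool.Agent.N111.GJ.FC.values X u x φ)) (φ y)

/-- The correspondence is generically finite on the closed subvariety `Z` of `M`, over `Ω`, with
generic point `z` and function field `E`: there is a point of `W` over the generic point of `Z` such
that the functions on `Z` are algebraic over the field generated over `Ω` by its values. -/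
def GenericallyFiniteOver (Ω : Type) [Field Ω] {E : Type} [Field E] [Algebra Ω E] [Algebra F E]
    (z : Fin N → E) : Prop :=
  ∃ φ : Pool.Agent.N111.GJ.FC.ring X u x →ₐ[F] AlgebraicClosure E,
    Pool.Agent.N111.GJ.FC.Over X u x φ (fun j => algebraMap E _ (z j)) ∧
    ∀ j, IsAlgebraic (IntermediateField.adjoin Ω (Pool.Agent.N111.GJ.FC.values X u x φ))
      (algebraMap E (AlgebraicClosure E) (z j))

end

/-- The closed subvariety over `Ω`, with function field `E`, generic point `z` and dimension `w`, is
contained in the affine variety over `F` with coordinates `u`. -/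
def IsSubOver (F Ω : Type) [Field F] [Field Ω] {ℒ : Type} [Field ℒ] [Algebra F ℒ] {N : ℕ}
    (u : Fin N → ℒ) {E : Type} [Field E] [Algebra Ω E] [Algebra F E] (z : Fin N → E) (w : ℕ) :
    Prop :=
  IntermediateField.adjoin Ω (Set.range z) = ⊤ ∧ Algebra.trdeg Ω E = w ∧
    ∀ P : MvPolynomial (Fin N) F, MvPolynomial.aeval u P = 0 → MvPolynomial.aeval z P = 0

/-- The height inequality for the point `f` over `L`. -/
def Ineq (k F : Type) {L : Type} [Field k] [IsAlgClosed k] [CharZero k] [Field F] [Field L]
    [Algebra k L] [Algebra F L] {N : ℕ} (A B : ℕ) (f : Fin N → L) : Prop :=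
  pht k (Fin.cons 1 f : Fin (N + 1) → L) ≤
    A * (canDeg k L + (poles k f).ncard) + B * Module.finrank F L

/-- Vojta's height inequality for all algebraic points that are not in `G = 0` of the affine variety
over `F` with coordinates `u`. -/
def Vojta (k F : Type) [Field k] [IsAlgClosed k] [CharZero k] [Field F] [Algebra k F]
    {ℒ : Type} [Field ℒ] [Algebra F ℒ] {N : ℕ} (u : Fin N → ℒ) (G : MvPolynomial (Fin N) F) :
    Prop :=
  ∃ A B : ℕ, ∀ (L : Type) [Field L] [Algebra k L] [Algebra F L] [IsScalarTower k F L]
    [FiniteDimensional F L] (f : Fin N → L),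
    (∀ P : MvPolynomial (Fin N) F, MvPolynomial.aeval u P = 0 → MvPolynomial.aeval f P = 0) →
    MvPolynomial.aeval f G ≠ 0 → Ineq k F A B f

theorem result {k0 k F0 F : Type} [Field k0] [Field k] [Field F0] [Field F] [IsAlgClosed k]
    [CharZero k] [Algebra k0 k] [Algebra k F] [Algebra k0 F] [IsScalarTower k0 k F]
    [Algebra k0 F0] [Algebra F0 F] [IsScalarTower k0 F0 F] [IsFF k F] (hfg : FinGen k0 F0) :
    -- `M`: any affine variety over `F`, with function field `ℒ` and coordinates `u`
    ∀ (ℒ : Type) [Field ℒ] [Algebra F ℒ] (N : ℕ) (u : Fin N → ℒ),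
      IntermediateField.adjoin F (Set.range u) = ⊤ →
      -- `M ← W → U`: any finite correspondence, whose geometric fibres over `M` have at most `r`
      -- points
      (∀ (X : GenericPair F0 F) (ℒ' : Type) [Field ℒ'] [Algebra F ℒ'] [Algebra ℒ ℒ']
        [IsScalarTower F ℒ ℒ'] [FiniteDimensional ℒ ℒ'] (x : Fin (X.n + 1) → ℒ') (r : ℕ),
        DefinedOver X → IsCorr X u x → FibresLE X u x r → 2 * X.m + 2 * r ≤ X.size →
        -- (0) the closed subvarieties over the algebraic closure of `F`, of positive dimension, on
        -- which it is generically finite, are of log general type; all of them, if `W` is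
        -- quasi-finite over `U`
        (∀ (E : Type) [Field E] [Algebra (AlgebraicClosure F) E] [Algebra F E]
          [IsScalarTower F (AlgebraicClosure F) E] (w : ℕ) (z : Fin N → E), 0 < w →
          IsSubOver F (AlgebraicClosure F) u z w →
          GenericallyFiniteOver X u x (AlgebraicClosure F) z ∨ QuasiFinite X u x →
          LogGeneral (AlgebraicClosure F) z w) ∧
        -- (1) the height inequality for the closed subvarieties on which it is generically finite,
        -- such as `M` itself, outside of a proper closed subset
        (∀ (E₀ : Type) [Field E₀] [Algebra F E₀] (w : ℕ) (z : Fin N → E₀), IsSub F u z w →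
          GenericallyFiniteOn X u x z →
            ∃ G : MvPolynomial (Fin N) F, MvPolynomial.aeval z G ≠ 0 ∧ Vojta k F z G) ∧
        -- (2) the height inequality for all algebraic points of `M`, if it is quasi-finite over `U`
        (QuasiFinite X u x → Vojta k F u 1)) ∧
      -- (3) the height inequality for all algebraic points of `M`, except those on the closed
      -- subvarieties of positive dimension on which no correspondence is generically finite
      (∃ A B : ℕ, ∀ (L : Type) [Field L] [Algebra k L] [Algebra F L] [IsScalarTower k F L]
        [FiniteDimensional F L] (f : Fin N → L),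
        (∀ P : MvPolynomial (Fin N) F, MvPolynomial.aeval u P = 0 → MvPolynomial.aeval f P = 0) →
        Ineq k F A B f ∨
        ∃ (E₀ : Type) (_ : Field E₀) (_ : Algebra F E₀) (w : ℕ) (z : Fin N → E₀), 0 < w ∧
          IsSub F u z w ∧
          (∀ P : MvPolynomial (Fin N) F, MvPolynomial.aeval z P = 0 →
            MvPolynomial.aeval f P = 0) ∧
          ∀ (X : GenericPair F0 F) (ℒ' : Type) [Field ℒ'] [Algebra F ℒ'] [Algebra ℒ ℒ']
            [IsScalarTower F ℒ ℒ'] [FiniteDimensional ℒ ℒ'] (x : Fin (X.n + 1) → ℒ') (r : ℕ),
            DefinedOver X → IsCorr X u x → FibresLE X u x r → 2 * X.m + 2 * r ≤ X.size →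
            ¬ GenericallyFiniteOn X u x z) ∧
      -- (4) the fibres over a normal variety
      ((∀ z : ℒ, IsIntegral (Algebra.adjoin F (Set.range u)) z →
        z ∈ Algebra.adjoin F (Set.range u)) → ∀ (X : GenericPair F0 F) (ℒ' : Type) [Field ℒ']
        [Algebra F ℒ'] [Algebra ℒ ℒ'] [IsScalarTower F ℒ ℒ'] [FiniteDimensional ℒ ℒ']
        (x : Fin (X.n + 1) → ℒ'), IsCorr X u x → FibresLE X u x (Module.finrank ℒ ℒ')) := by
  have hcF : CharZero F := charZero_of_injective_algebraMap (algebraMap k F).injective
  obtain ⟨C, hC⟩ := Pool.Agent.N95.HN.max_le k F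
  -- the two forms of the inequality
  have hconv : ∀ {A : ℕ} {L : Type} [Field L] [Algebra k L] [Algebra F L] [IsScalarTower k F L]
      [FiniteDimensional F L] {N : ℕ} (f : Fin N → L), IsFF k L →
      pht k (Fin.cons 1 f : Fin (N + 1) → L) ≤
        A * (max (canDeg k L + (poles k f).ncard) 0 + Module.finrank F L) →
      Ineq k F A (A * (C + 1)) f := by
    intro A L _ _ _ _ _ N f hL h
    refine h.trans ?_
    have h1 := hC L (poles k f).ncard
    push_cast
    have h2 := mul_le_mul_of_nonneg_left h1 (show (0 : ℤ) ≤ A by positivity)
    linarith
  intro ℒ _ _ N u hgen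
  have hoff := Pool.Agent.N95.HN.off_boundF (k0 := k0) (k := k) (F0 := F0) (F := F) (u := u) hfg
  refine ⟨fun X ℒ' _ _ _ _ _ x r hV hc hr hd => ?_, ?_, fun hnorm X ℒ' _ _ _ _ _ x hc s => ?_⟩
  · let W : Pool.Agent.N111.GJ.Corr F0 F u :=
      { X := X, L' := ℒ', x := x, pt := hc.pt, integral := hc.integral }
    refine ⟨fun E _ _ _ _ w z hw hz hgf => ?_, fun E₀ _ _ w z hz hW => ?_, fun hq => ?_⟩
    · have hcE : CharZero E := charZero_of_injective_algebraMap (algebraMap F E).injective
      have h0 : ∃ φ : W.ring →ₐ[F] AlgebraicClosure E,
          W.Over φ (fun j => algebraMap E _ (z j)) ∧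
          ∀ j, IsAlgebraic (IntermediateField.adjoin (AlgebraicClosure F) (W.values φ))
            (algebraMap E (AlgebraicClosure E) (z j)) := by
        rcases hgf with h | hq
        · exact h
        · obtain ⟨φ, hφ⟩ := W.exists_over (Ω := AlgebraicClosure E)
            (z := fun j => algebraMap E _ (z j)) fun P hP => by
              have h1 : MvPolynomial.aeval (fun j => algebraMap E (AlgebraicClosure E) (z j)) P =
                  algebraMap E (AlgebraicClosure E) (MvPolynomial.aeval z P) :=
                MvPolynomial.aeval_algebraMap_apply _ z P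
              rw [h1, hz.2.2 P hP, map_zero]
          refine ⟨φ, hφ, fun j => ?_⟩
          have h1 : IsAlgebraic (IntermediateField.adjoin F (W.values φ)) (φ ⟨_, W.base_mem j⟩) :=
            hq (AlgebraicClosure E) φ j ⟨_, W.base_mem j⟩ rfl
          rw [hφ j _ rfl] at h1
          exact Pool.Agent.N95.HN.alg_larger h1
      obtain ⟨φ, hφ, halg⟩ := h0
      exact Pool.Agent.N95.HN.log_generalF (W := W) hV hr hz.1 hz.2.1 hw hφ halg
        (hd.trans (Nat.le_add_right _ _))
    · obtain ⟨G, A, hG, hA⟩ := Pool.Agent.N95.HN.gf_boundF (k := k) (W := W) hfg hV hr hW hd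
      refine ⟨G, hG, A, A * (C + 1), fun L _ _ _ _ _ f hf hfG => ?_⟩
      have hL : IsFF k L := isFF_of_finite (F := F)
      exact hconv f hL (hA L f hf hfG)
    · obtain ⟨A, hA⟩ := hoff
      refine ⟨A, A * (C + 1), fun L _ _ _ _ _ f hf _ => ?_⟩
      have hL : IsFF k L := isFF_of_finite (F := F)
      rcases hA L f hf with h | ⟨E₀, _, _, w, z, hw, hz, -, h⟩
      · exact hconv f hL h
      · exfalso
        refine h W r hV hr hd ?_
        obtain ⟨φ, hφ⟩ := W.exists_over (Ω := AlgebraicClosure E₀)
          (z := fun j => algebraMap E₀ _ (z j)) fun P hP => by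
            have h1 : MvPolynomial.aeval (fun j => algebraMap E₀ (AlgebraicClosure E₀) (z j)) P =
                algebraMap E₀ (AlgebraicClosure E₀) (MvPolynomial.aeval z P) :=
              MvPolynomial.aeval_algebraMap_apply _ z P
            rw [h1, hz.rel P hP, map_zero]
        refine ⟨φ, hφ, fun j => ?_⟩
        have h1 : IsAlgebraic (IntermediateField.adjoin F (W.values φ)) (φ ⟨_, W.base_mem j⟩) :=
          hq (AlgebraicClosure E₀) φ j ⟨_, W.base_mem j⟩ rfl
        rwa [hφ j _ rfl] at h1
  · obtain ⟨A, hA⟩ := hoff
    refine ⟨A, A * (C + 1), fun L _ _ _ _ _ f hf => ?_⟩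
    have hL : IsFF k L := isFF_of_finite (F := F)
    refine (hA L f hf).imp (fun h => hconv f hL h) ?_
    rintro ⟨E₀, i1, i2, w, z, hw, hz, hzf, h⟩
    exact ⟨E₀, i1, i2, w, z, hw, hz, hzf, fun X L' _ _ _ _ _ x r hV hc hr hd =>
      h { X := X, L' := L', x := x, pt := hc.pt, integral := hc.integral } r hV hr hd⟩
  · have hinf : Infinite F := Infinite.of_injective _ (algebraMap k F).injective
    exact Pool.Agent.N95.HN.fib_normalF
      { X := X, L' := ℒ', x := x, pt := hc.pt, integral := hc.integral } hnorm s

end Pool.Agent.Results.MP_4dacf8_ag.FiniteCorrespondences
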