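import Pool.Agent.N752.QS.Main

/-!
MP_4dacf8_ag, Q1, `D = 0`: Vojta's height inequality for all algebraic points on generic quintic
surfaces in projective space of dimension `3`.

Let `k` be an algebraically closed field of characteristic zero, and `K` a function field of one
variable over `k`. Let `X` be the surface `H = 0` in projective space of dimension `3`, for a form
`H` over `K` of degree `5` whose coefficients are algebraically independent over a subfield `K0`
of `K` that is finitely generated over a subfield `k0` of `k`. (For `k` uncountable and `k0`
countable, this holds for the very general quintic surfaces over `k`, and for very general families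
of quintic surfaces, which are not isotrivial.) The surface is smooth, and its canonical class is
the class of a hyperplane section. Then there are constants `c` and `B` such that for all finite
extensions `L` of `K` and all points `x` of `X` over `L`,
`h(x) ≤ c (2 g(L) - 2) + B [L : K]`.

This is the conjectured inequality, for the points of all degrees and outside the empty set. Degree
`5` is the least degree of the surfaces of general type. For the points over one fixed extension
`L`, with a constant depending on `L`, see `GenericSurfacesRational`; for the surfaces of degree at
least `6`, see `GenericLogPairs`.

Here `pht k x` is the height of `x`, minus the sum over all places of `L` of the minimum of the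
orders of the coordinates; it is `[L : K]` times the height relative to `K`. And `canDeg k L` is
the degree `2 g(L) - 2` of the canonical divisors of `L`, where `g(L)` is the genus of `L`.

The proof is by contradiction: if there are points `x_m` over extensions `L_m` of `K` whose heights
are not `O(s_m)`, where `s_m` is the right hand side, then the classes of the sequences of elements
of the fields `L_m` of height `O(s_m)` form a subfield of the ultrapower of the algebraic closure
of `K`; let `E` be its algebraic closure. The ratios of certain determinants in the derivatives of
the `x_m` lie in `E`, and linear algebra over it shows that the limit of the `x_m` lies on a line or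
a conic defined over `E`. As no line or conic is contained in the generic quintic surface, the limit
is defined over `E`, and this bounds the heights of the `x_m`.
-/

set_option autoImplicit false

namespace Pool.Agent.Results.MP_4dacf8_ag.GenericQuintics

open FF MvPolynomial Pool.Agent.W603.LV Pool.Agent.W603.PV

theorem result {k0 k K0 K : Type} [Field k0] [Field k] [Field K0] [Field K] [IsAlgClosed k]
    [CharZero k] [Algebra k0 k] [Algebra k K] [Algebra k0 K] [IsScalarTower k0 k K]
    [Algebra k0 K0] [Algebra K0 K] [IsScalarTower k0 K0 K] [IsFF k K]
    (hfg : ∃ S : Finset K0, IntermediateField.adjoin k0 (S : Set K0) = ⊤)
    -- a form of degree `5` with independent coefficients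
    {H : MvPolynomial (Fin (3 + 1)) K} (hH : H.IsHomogeneous 5)
    (hgen : AlgebraicIndependent K0 fun I : {I : Fin (3 + 1) →₀ ℕ // I.degree = 5} =>
      H.coeff I.1) :
    ∃ c B : ℕ, ∀ (L : Type) [Field L] [Algebra k L] [Algebra K L] [IsScalarTower k K L]
      [FiniteDimensional K L] (x : Fin (3 + 1) → L), x ≠ 0 → aeval x H = 0 →
        pht k x ≤ c * canDeg k L + B * Module.finrank K L :=
  Pool.Agent.N752.QS.quintic (k0 := k0) (k := k) hfg hH hgen

end Pool.Agent.Results.MP_4dacf8_ag.GenericQuintics
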