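import Mathlib
import Pool.Agent.N754.FV.HI
import Pool.Agent.N717.FV.WR
import Pool.Agent.N342.FV.EMB
import Pool.Agent.N87.FV.LH

/-!
MP_4dacf8_ag, Q1: Vojta's height inequality over function fields, for affine varieties which are
linear over a torus.
-/

set_option autoImplicit false
set_option linter.overlappingInstances false

namespace Pool.Agent.Results.MP_4dacf8_ag.LinearOverTorus

open MvPolynomial FF Pool.Agent.W603.LV Pool.Agent.H159R3.Exp Pool.Agent.W602.GT

variable {F : Type} [Field F] {n : ℕ}

/-- The points with coordinates in `L` of the closed subset of affine space with the ideal `I`. -/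
def Pts (I : Ideal (MvPolynomial (Fin n) F)) (L : Type) [Field L] [Algebra F L] :
    Set (Fin n → L) :=
  {x | ∀ Q ∈ I, aeval x Q = 0}

/-- The number of places of the function field `L` at which some coordinate of `x` has a pole. -/
noncomputable def numPoles (k : Type) {L : Type} [Field k] [Field L] [Algebra k L]
    (x : Fin n → L) : ℕ :=
  {P : Place k L | ∃ j, P.ord (x j) < 0}.ncard

/-- The height inequality for the points of `V(I)` outside `V(J)` over all finite extensions `L` of
`F`: with the constants `A` and `B`, the degree of the point is at most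
`A (2 g - 2 + number of poles) + B [L : F]`. -/
def HeightInequality (k : Type) [Field k] [Algebra k F] (I J : Ideal (MvPolynomial (Fin n) F)) :
    Prop :=
  ∃ A B : ℤ, ∀ (L : Type) [Field L] [Algebra k L] [Algebra F L] [IsScalarTower k F L]
    [FiniteDimensional F L], ∀ x ∈ Pts I L, x ∉ Pts J L →
    mapDeg k x ≤ A * (canDeg k L + numPoles k x) + B * Module.finrank F L

/-- The degrees of the points of `V(I)` outside `V(J)` over a given finite extension of `F` with
poles in a given finite set of places are bounded. -/
def BoundedDegrees (k : Type) [Field k] [Algebra k F] (I J : Ideal (MvPolynomial (Fin n) F)) :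
    Prop :=
  ∀ (L : Type) [Field L] [Algebra k L] [Algebra F L] [IsScalarTower k F L]
    [FiniteDimensional F L] (S : Finset (Place k L)), ∃ B : ℤ, ∀ x ∈ Pts I L, x ∉ Pts J L →
    (∀ j, ∀ P ∉ S, 0 ≤ P.ord (x j)) → mapDeg k x ≤ B

/-- The nonconstant maps `t ↦ v t`, `t ≠ 0`, to `V(I)` with Laurent coordinates, over the
algebraic closure of `F`. -/
def Laurents (I : Ideal (MvPolynomial (Fin n) F)) :
    Set (AlgebraicClosure F → Fin n → AlgebraicClosure F) :=
  {v | (∀ j, Laur fun t => v t j) ∧ (∀ t, t ≠ 0 → v t ∈ Pts I (AlgebraicClosure F)) ∧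
    ∃ s t, s ≠ 0 ∧ t ≠ 0 ∧ v s ≠ v t}

/-- The ideal is generated by polynomials of degree at most one in the variables with index outside
`U`. -/
def LinearOff (I : Ideal (MvPolynomial (Fin n) F)) (U : Finset (Fin n)) : Prop :=
  ∃ s : Set (MvPolynomial (Fin n) F), I = Ideal.span s ∧
    ∀ Q ∈ s, ∀ m ∈ Q.support, ∑ j ∈ Uᶜ, m j ≤ 1

/-- Every point `z` of `V(I)` outside `V(J)` which has the same coordinates with index in `U` as
another point of `V(I)` is the value at `1` of a nonconstant map to `V(I)` with Laurent
coordinates. -/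
def FibresCovered (I J : Ideal (MvPolynomial (Fin n) F)) (U : Finset (Fin n)) : Prop :=
  ∀ z ∈ Pts I (AlgebraicClosure F), z ∉ Pts J (AlgebraicClosure F) →
    ∀ z' ∈ Pts I (AlgebraicClosure F), (∀ i ∈ U, z' i = z i) → z' ≠ z → ∃ v ∈ Laurents I, v 1 = z

/-- The closed subvariety `V(p)` of affine space is of logarithmic general type. Here `K` is its
function field, `y` its generic point, and the places of `K` with a pole of some coordinate are
those without centre on `V(p)`. -/
def OfLogGeneralType (p : Ideal (MvPolynomial (Fin n) F)) : Prop :=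
  ∃ (K : Type) (_ : Field K) (_ : Algebra F K) (y : Fin n → K) (w : ℕ),
    (∀ Q, aeval y Q = 0 ↔ Q ∈ p) ∧ IntermediateField.adjoin F (Set.range y) = ⊤ ∧
    LogGeneralType F K w fun P => ∃ j, P.ord (y j) < 0

/-- Let `F` be a function field of one variable over the algebraically closed field `k` of
characteristic zero, `V = V(I)` a closed subset of affine space over `F`, and `U` a set of
coordinates without zeros on `V`.

* Suppose that `V` is linear over the torus with coordinates in `U`: the ideal `I` is generated by
  polynomials of degree at most one in the other coordinates. Let `V₀ = V(p)` be an irreducible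
  component of `V` which is of logarithmic general type. Then there is a proper closed subset of
  `V₀` such that the height inequality holds for the points of `V₀` outside it.
* Let `V' = V(J)` be any closed subset, and suppose that `V` is linear over the torus or, more
  generally, that the points of `V` outside `V'` which are not alone in their fibres over the torus
  are on nonconstant curves in `V` with Laurent coordinates. Then the following are equivalent: the
  height inequality holds for the points of `V` outside `V'`; for every finite extension of `F` and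
  every finite set of its places, the degrees of the integral points of `V` outside `V'` are bounded;
  the nonconstant curves in `V` with Laurent coordinates, over the algebraic closure of `F`, lie in
  `V'`. -/
theorem result {k : Type} [Field k] [IsAlgClosed k] [CharZero k] [Algebra k F] [IsFF k F]
    (I : Ideal (MvPolynomial (Fin n) F)) (U : Finset (Fin n))
    (hU : ∀ z ∈ Pts I (AlgebraicClosure F), ∀ i ∈ U, z i ≠ 0) :
    (LinearOff I U → ∀ p ∈ I.minimalPrimes, OfLogGeneralType p →
      ∃ J : Ideal (MvPolynomial (Fin n) F), ¬ J ≤ p ∧ HeightInequality k p J) ∧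
    ∀ J : Ideal (MvPolynomial (Fin n) F), LinearOff I U ∨ FibresCovered I J U →
      List.TFAE [HeightInequality k I J, BoundedDegrees k I J,
        ∀ v ∈ Laurents I, ∀ t, t ≠ 0 → v t ∈ Pts J (AlgebraicClosure F)] := by
  classical
  have hWR : Pool.Agent.N754.FV.WR := Pool.Agent.N717.FV.wr
  have hEMB : Pool.Agent.N754.FV.EMB := Pool.Agent.N342.FV.emb
  have hLH : Pool.Agent.N754.FV.LH := Pool.Agent.N87.FV.lh
  have hcharF : CharZero F := charZero_of_injective_algebraMap (algebraMap k F).injective
  let Ω := AlgebraicClosure F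
  have hcharΩ : CharZero Ω := charZero_of_injective_algebraMap (algebraMap F Ω).injective
  -- the set of poles
  have hpol : ∀ (L : Type) [Field L] [Algebra k L] [Algebra F L] [IsScalarTower k F L]
      [FiniteDimensional F L] (x : Fin n → L), ∃ S : Finset (Place k L),
      (∀ P, P ∈ S ↔ ∃ j, P.ord (x j) < 0) ∧ S.card = numPoles k x := by
    intro L _ _ _ _ _ x
    have hFL : IsFF k L := Pool.Agent.W603.PV.isFF_of_finite (k := k) (F := F) (L := L)
    obtain ⟨T, hT⟩ := exists_supp (k := k) (Finset.univ : Finset (Fin n)) x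
    have hfin : {P : Place k L | ∃ j, P.ord (x j) < 0}.Finite :=
      T.finite_toSet.subset fun P ⟨j, hj⟩ => hT j (Finset.mem_univ _) P hj.ne
    refine ⟨hfin.toFinset, fun P => ?_, ?_⟩
    · rw [Set.Finite.mem_toFinset]
      rfl
    · unfold numPoles
      rw [Set.ncard_eq_toFinset_card _ hfin]
  have hspan : ∀ (s : Set (MvPolynomial (Fin n) F)) (L : Type) [Field L] [Algebra F L]
      (x : Fin n → L), (∀ Q ∈ s, aeval x Q = 0) → ∀ Q ∈ Ideal.span s, aeval x Q = 0 := by
    intro s L _ _ x h Q hQ
    have h1 : Ideal.span s ≤ RingHom.ker (aeval (R := F) x) := by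
      rw [Ideal.span_le]
      exact h
    exact h1 hQ
  constructor
  · rintro ⟨s, hIs, hlin⟩ p hp hL
    obtain ⟨t, hts, hst⟩ := (Submodule.fg_span_iff_fg_span_finset_subset _).1
      (IsNoetherian.noetherian (Ideal.span s))
    have hst' : Ideal.span s = Ideal.span (t : Set (MvPolynomial (Fin n) F)) := hst
    let E : t → MvPolynomial (Fin n) F := fun l => l.1
    have hrange : Set.range E = (t : Set (MvPolynomial (Fin n) F)) := by
      ext Q
      exact ⟨fun ⟨l, hl⟩ => hl ▸ l.2, fun h => ⟨⟨Q, h⟩, rfl⟩⟩
    have hIE : I = Ideal.span (Set.range E) := by rw [hIs, hst', hrange]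
    obtain ⟨H, hH, A, hA⟩ := Pool.Agent.N754.FV.bound_of_logGT (k := k) hWR hEMB U E Ω
      (fun z hz i hi => hU z (by
        intro Q hQ
        rw [hIE] at hQ
        refine hspan _ Ω z ?_ Q hQ
        rintro _ ⟨l, rfl⟩
        exact hz l) i hi)
      (fun l => hlin _ (hts l.2)) p (by rw [← hIE]; exact hp) hL
    refine ⟨Ideal.span {H}, fun h => hH (h (Ideal.mem_span_singleton_self H)), A, 3 * A, ?_⟩
    intro L _ _ _ _ _ x hx hxJ
    obtain ⟨S, hS1, hS2⟩ := hpol L x
    have h1 := hA L S x (fun j P hP => by
      by_contra hcon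
      push Not at hcon
      exact hP ((hS1 P).2 ⟨j, hcon⟩)) hx (fun h0 => hxJ (hspan _ L x (by
        intro Q hQ
        rw [Set.mem_singleton_iff.1 hQ]
        exact h0)))
    rw [hS2] at h1
    have h2 : (A : ℤ) * (canDeg k L + numPoles k x + 3 * Module.finrank F L) =
        A * (canDeg k L + numPoles k x) + 3 * A * Module.finrank F L := by ring
    rw [h2] at h1
    exact h1.le
  · intro J hfib
    obtain ⟨s, hIs, hlin⟩ : ∃ s : Set (MvPolynomial (Fin n) F), I = Ideal.span s ∧
        (LinearOff I U → ∀ Q ∈ s, ∀ m ∈ Q.support, ∑ j ∈ Uᶜ, m j ≤ 1) := by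
      by_cases h : LinearOff I U
      · obtain ⟨s, h1, h2⟩ := h
        exact ⟨s, h1, fun _ => h2⟩
      · exact ⟨I, (Ideal.span_eq I).symm, fun h' => absurd h' h⟩
    obtain ⟨t, hts, hst⟩ := (Submodule.fg_span_iff_fg_span_finset_subset _).1
      (IsNoetherian.noetherian (Ideal.span s))
    have hst' : Ideal.span s = Ideal.span (t : Set (MvPolynomial (Fin n) F)) := hst
    let E : t → MvPolynomial (Fin n) F := fun l => l.1
    let G : J → MvPolynomial (Fin n) F := fun l => l.1
    have hIE : I = Ideal.span (Set.range E) := by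
      have hrange : Set.range E = (t : Set (MvPolynomial (Fin n) F)) := by
        ext Q
        exact ⟨fun ⟨l, hl⟩ => hl ▸ l.2, fun h => ⟨⟨Q, h⟩, rfl⟩⟩
      rw [hIs, hst', hrange]
    have hptI : ∀ (L : Type) [Field L] [Algebra F L] (x : Fin n → L),
        x ∈ Pts I L ↔ ∀ l, aeval x (E l) = 0 := by
      intro L _ _ x
      constructor
      · intro h l
        apply h
        rw [hIE]
        exact Ideal.subset_span ⟨l, rfl⟩
      · intro h Q hQ
        rw [hIE] at hQ
        refine hspan _ L x ?_ Q hQ
        rintro _ ⟨l, rfl⟩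
        exact h l
    have hptJ : ∀ (L : Type) [Field L] [Algebra F L] (x : Fin n → L),
        x ∈ Pts J L ↔ ∀ l, aeval x (G l) = 0 := fun L _ _ x =>
      ⟨fun h l => h l.1 l.2, fun h Q hQ => h ⟨Q, hQ⟩⟩
    have hptJ' : ∀ (L : Type) [Field L] [Algebra F L] (x : Fin n → L),
        x ∉ Pts J L ↔ ∃ l, aeval x (G l) ≠ 0 := by
      intro L _ _ x
      rw [hptJ]
      push Not
      rfl
    have hLI : Pool.Agent.N754.FV.LaurIn Ω E G ↔
        ∀ v ∈ Laurents I, ∀ t, t ≠ 0 → v t ∈ Pts J (AlgebraicClosure F) := by
      constructor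
      · rintro h v ⟨hv1, hv2, hv3⟩ t ht
        rw [hptJ]
        exact fun l => h v hv1 (fun l s hs => (hptI Ω _).1 (hv2 s hs) l) hv3 l t ht
      · intro h v hv1 hv2 hv3 l s hs
        exact (hptJ Ω _).1 (h v ⟨hv1, fun t ht => (hptI Ω _).2 fun l => hv2 l t ht, hv3⟩ s hs) l
    have hcov : Pool.Agent.N754.FV.Cov Ω E G U := by
      rcases hfib with h | h
      · exact Pool.Agent.N754.FV.cov_of_lin Ω E G U fun l => hlin h _ (hts l.2)
      · intro z z' hz hzJ hz' hzz' hne
        obtain ⟨v, ⟨hv1, hv2, s, t, hs, ht, hst⟩, hv4⟩ := h z ((hptI Ω z).2 hz)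
          ((hptJ' Ω z).2 hzJ) z' ((hptI Ω z').2 hz') hzz' hne
        refine ⟨v, hv1, fun l s hs => (hptI Ω _).1 (hv2 s hs) l, hv4, ?_⟩
        by_contra hcon
        push Not at hcon
        exact hst (by rw [hcon s hs, hcon t ht])
    tfae_have 3 → 1 := by
      intro h
      obtain ⟨A, hA⟩ := Pool.Agent.N754.FV.bound_of_laurIn (k := k) hWR hEMB U E G Ω
        (fun z hz i hi => hU z ((hptI Ω z).2 hz) i hi) hcov (hLI.2 h)
      refine ⟨A, 3 * A, ?_⟩
      intro L _ _ _ _ _ x hx hxJ
      obtain ⟨S, hS1, hS2⟩ := hpol L x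
      have h1 := hA L S x (fun j P hP => by
        by_contra hcon
        push Not at hcon
        exact hP ((hS1 P).2 ⟨j, hcon⟩)) ((hptI L x).1 hx) ((hptJ' L x).1 hxJ)
      rw [hS2] at h1
      have h2 : (A : ℤ) * (canDeg k L + numPoles k x + 3 * Module.finrank F L) =
          A * (canDeg k L + numPoles k x) + 3 * A * Module.finrank F L := by ring
      rw [h2] at h1
      exact h1.le
    tfae_have 1 → 2 := by
      rintro ⟨A, B, h⟩ L _ _ _ _ _ S
      refine ⟨|A| * (|canDeg k L| + S.card) + B * Module.finrank F L, ?_⟩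
      intro x hx hxJ hxS
      obtain ⟨T, hT1, hT2⟩ := hpol L x
      have h1 := h L x hx hxJ
      refine h1.trans ?_
      have h2 : (numPoles k x : ℤ) ≤ S.card := by
        rw [← hT2]
        exact_mod_cast Finset.card_le_card fun P hP => by
          obtain ⟨j, hj⟩ := (hT1 P).1 hP
          by_contra hcon
          exact absurd (hxS j P hcon) (not_le.2 hj)
      have h3 : A * (canDeg k L + numPoles k x) ≤ |A| * (|canDeg k L| + S.card) := by
        calc A * (canDeg k L + numPoles k x) ≤ |A * (canDeg k L + numPoles k x)| := le_abs_self _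
          _ = |A| * |canDeg k L + numPoles k x| := abs_mul _ _
          _ ≤ |A| * (|canDeg k L| + S.card) := by
            refine mul_le_mul_of_nonneg_left ?_ (abs_nonneg A)
            refine (abs_add_le _ _).trans (add_le_add_right ?_ _)
            rw [abs_of_nonneg (by positivity : (0 : ℤ) ≤ numPoles k x)]
            exact h2
      exact add_le_add_left h3 _
    tfae_have 2 → 3 := by
      intro h
      rw [← hLI]
      refine Pool.Agent.N754.FV.laurIn_of_bounded (k := k) hLH E G Ω ?_
      intro L _ _ _ _ _ S
      obtain ⟨B, hB⟩ := h L S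
      exact ⟨B, fun x hx1 hx2 hx3 => hB x ((hptI L x).2 hx2) ((hptJ' L x).2 hx3) hx1⟩
    tfae_finish

end Pool.Agent.Results.MP_4dacf8_ag.LinearOverTorus
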