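import Mathlib
import Pool.Agent.N131.FM.Low

/-!
# MP_4dacf8_ag: Vojta's height inequality for all pairs of logarithmic general type over function
# fields, for all algebraic points, up to the osculation places or the zeros of the coordinates of low
# multiplicity

Let `k` be an algebraically closed field of characteristic zero, `F` a function field of one
variable over `k`, `X` a projective variety of dimension `w > 0` over `F` (possibly singular, possibly
not isotrivial), `D` a proper closed subset of `X` such that the pair `(X, D)` is of logarithmic
general type, and `S` a finite set of places of `F`. Let `R = (R_0 : … : R_ν)` be a rational map of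
`X` to a projective space which is generically finite onto its image, and let `D₀` be the divisor
`R_0 ⋯ R_ν = 0` on `X`. Then

`h(x) ≤ C (d(x) + N^(1)_S(D, x) + min (ρ_S(x), N_{S,<μ}(D₀, x)) + 1)`

for **all** points `x` of `X` over all finite extensions `L` of `F` which are not contained in a proper
closed subset `A = 0`; here `A`, `C` and `μ` do not depend on `x` and `L`, the degree of `L` over `F` is
not bounded, `d` is the logarithmic discriminant (`χ(x) = d(x) + 2 g(F) - 2`), `N^(1)_S` is the
truncated counting function, and `N_{S,<μ}(D₀, x)` is the number of the places, not over `S`, at which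
`x` meets `D₀` with a multiplicity less than `μ`, divided by `[L : F]`. In particular, the inequality
`h(x) ≤ C (d(x) + N^(1)_S(D, x) + 1)` of Q1 holds for all points which are integral for `D₀` or meet
`D₀` only with multiplicities `≥ μ`; and we prove it for all points off `A = 0` if `D` contains `D₀`
for some `R`, e.g. if `D` is the support of a hypersurface section and `X - D` has a generically finite
map to a torus.

The number `ρ_S(x)` is the number of the osculation places, divided by `[L : F]`: let `V ⊆ L` be the
linear span over `k` of the coordinates `R_i(x)`, of dimension `n`; a place `P` of `L`, not over `S`,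
is counted (once) if there are a nonzero `v` in `V` and a `u` in `V` of smallest order at `P` with
`ord_P v ≥ ord_P u + n`. (For general `P` the elements of `V` have the orders
`ord_P u, …, ord_P u + n - 1`.) These are the zeros of the Wronskian determinant of a basis of `V`,
relative to the smallest order.
-/

set_option autoImplicit false

namespace Pool.Agent.Results.MP_4dacf8_ag.NearlyIntegralPoints

open FF MvPolynomial
open Pool.Agent.W603.PV (disc under)
open Pool.Agent.W602.GT (IsForm coords LogGeneralType)

section fields

variable {k F : Type} [Field k] [IsAlgClosed k] [CharZero k] [Field F] [Algebra k F] [IsFF k F]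

/-- A finite extension of `F`. -/
abbrev Ext (F : Type) [Field F] : Type := IntermediateField F (AlgebraicClosure F)

instance (L : Ext F) [FiniteDimensional F L] : IsFF k L := N131.FV.isFF_inter L

end fields

section points

variable (k : Type) {F : Type} [Field k] [Field F] [Algebra k F] {L : Ext F}

/-- The minimum of the orders of the nonzero coordinates of `x` at the place `P`. -/
noncomputable def minOrd {k F : Type} [Field k] [Field F] [Algebra k F] {L : Ext F} {n : ℕ}
    (P : Place k L) (x : Fin (n + 1) → L) : ℤ :=
  ⨅ c : {c // x c ≠ 0}, P.ord (x c.1)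

/-- The height of the point with the homogeneous coordinates `x`: minus the sum over all places of
`L` of the minimum of the orders of the coordinates, divided by `[L : F]`. -/
noncomputable def height {n : ℕ} (x : Fin (n + 1) → L) : ℝ :=
  ((-∑ᶠ P : Place k L, minOrd P x : ℤ) : ℝ) / Module.finrank F L

/-- The logarithmic discriminant of `L` over `F`: the sum over all places of `L` of the ramification
index over `F` minus one, divided by `[L : F]`. -/
noncomputable def logDisc (L : Ext F) : ℝ := (disc k F L : ℝ) / Module.finrank F L

/-- The linear system of the coordinates of `z`, over `k`. -/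
noncomputable abbrev system {n : ℕ} (z : Fin (n + 1) → L) : Submodule k L :=
  Submodule.span k (Set.range z)

/-- At `P` a nonzero element of the linear system of `z` has an order which is larger than the
smallest order by the dimension of the system, or more. -/
def Osculates {k F : Type} [Field k] [Field F] [Algebra k F] {L : Ext F} {n : ℕ}
    (P : Place k L) (z : Fin (n + 1) → L) : Prop :=
  ∃ v ∈ system k z, v ≠ 0 ∧ minOrd P z + Module.finrank k (system k z) ≤ P.ord v

/-- The local height of `x` at `P` for the set `D` of the common zeros of the forms `Q_l`, of the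
degrees `q_l`, is positive: `x` reduces to a point of `D` at `P`. -/
def Meets {k F : Type} [Field k] [Field F] [Algebra k F] {L : Ext F} {M s : ℕ}
    (Q : Fin (s + 1) → MvPolynomial (Fin (M + 1)) F) (q : Fin (s + 1) → ℕ) (P : Place k L)
    (x : Fin (M + 1) → L) : Prop :=
  ∀ l, aeval x (Q l) = 0 ∨ q l * minOrd P x < P.ord (aeval x (Q l))

end points

section counting

variable {k F : Type} [Field k] [IsAlgClosed k] [CharZero k] [Field F] [Algebra k F] [IsFF k F]
  {L : Ext F} [FiniteDimensional F L]

/-- The truncated counting function for the set `D` of the common zeros of the forms `Q_l`, of the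
degrees `q_l`: the number of the places of `L` which are not over `S` and at which the local height
of `x` for `D` is positive, divided by `[L : F]`. -/
noncomputable def truncated (S : Finset (Place k F)) {M s : ℕ}
    (Q : Fin (s + 1) → MvPolynomial (Fin (M + 1)) F) (q : Fin (s + 1) → ℕ)
    (x : Fin (M + 1) → L) : ℝ :=
  ({P : Place k L | under F P ∉ S ∧ Meets Q q P x}.ncard : ℝ) / Module.finrank F L

/-- The number of the places of `L` which are not over `S` and at which `x` meets the divisor `R = 0`,
`R` a form of the degree `d`, with a multiplicity which is less than `μ`, divided by `[L : F]`. -/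
noncomputable def low (S : Finset (Place k F)) {M : ℕ} (R : MvPolynomial (Fin (M + 1)) F) (d μ : ℕ)
    (x : Fin (M + 1) → L) : ℝ :=
  ({P : Place k L | under F P ∉ S ∧ d * minOrd P x < P.ord (aeval x R) ∧
    P.ord (aeval x R) < d * minOrd P x + μ}.ncard : ℝ) / Module.finrank F L

/-- The number of the osculation places which are not over `S`, divided by `[L : F]`. -/
noncomputable def osculation (S : Finset (Place k F)) {n : ℕ} (z : Fin (n + 1) → L) : ℝ :=
  ({P : Place k L | under F P ∉ S ∧ Osculates P z}.ncard : ℝ) / Module.finrank F L

end counting

section var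

variable {F : Type} [Field F] {M : ℕ} {K : Type} [Field K] [Algebra F K]

/-- `K` is the function field, `w` the dimension and `y` the generic point, in homogeneous
coordinates, of a closed subvariety of the projective space of dimension `M` over `F`. A form `G`
vanishes on the variety if and only if `G(y) = 0`. -/
structure Variety (F K : Type) [Field F] [Field K] [Algebra F K] (w : ℕ) (y : Fin (M + 1) → K) :
    Prop where
  ne : ∃ i, y i ≠ 0
  gen : coords F y = ⊤
  dim : Algebra.trdeg F K = w

/-- `x` is a point over `L` of the variety with the generic point `y`. -/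
structure Point (y : Fin (M + 1) → K) {L : Ext F} (x : Fin (M + 1) → L) : Prop where
  ne : x ≠ 0
  mem : ∀ G : MvPolynomial (Fin (M + 1)) F, IsForm G → aeval y G = 0 → aeval x G = 0

/-- The forms `R` of the degree `e`, none of which vanishes on the variety with the generic point `y`,
define a rational map of this variety which is generically finite onto its image. -/
structure GenFinite {ν : ℕ} (y : Fin (M + 1) → K) (e : ℕ)
    (R : Fin (ν + 1) → MvPolynomial (Fin (M + 1)) F) : Prop where
  hom : ∀ i, (R i).IsHomogeneous e
  ne : ∀ i, aeval y (R i) ≠ 0
  alg : Algebra.IsAlgebraic (IntermediateField.adjoin F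
    {z | ∃ i j, z = aeval y (R i) / aeval y (R j)}) K

/-- The centre of the place `P` of the function field lies in the set of the common zeros of the
forms `Q_l`, of the degrees `q_l`, on the variety with the generic point `y`. -/
def CentreIn {s : ℕ} (Q : Fin (s + 1) → MvPolynomial (Fin (M + 1)) F) (q : Fin (s + 1) → ℕ)
    (y : Fin (M + 1) → K) (P : Place F K) : Prop :=
  ∃ j, y j ≠ 0 ∧ (∀ i, P.Reg (y i / y j)) ∧
    ∀ l, aeval y (Q l) / y j ^ q l = 0 ∨ 1 ≤ P.ord (aeval y (Q l) / y j ^ q l)

/-- The set of the common zeros of the forms `Q_i`, of the degrees `q_i`, on the variety with the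
generic point `y` contains the zeros of the form `R` of the degree `d`: on the variety, a power of each
`Q_i` is a multiple of `R`. -/
def Contains {s : ℕ} (Q : Fin (s + 1) → MvPolynomial (Fin (M + 1)) F) (q : Fin (s + 1) → ℕ)
    (y : Fin (M + 1) → K) (R : MvPolynomial (Fin (M + 1)) F) (d : ℕ) : Prop :=
  ∀ i, ∃ (a τ : ℕ) (T : MvPolynomial (Fin (M + 1)) F), 0 < a ∧ T.IsHomogeneous τ ∧
    a * q i = d + τ ∧ aeval y (Q i) ^ a = aeval y R * aeval y T

end var

theorem GenFinite.alg' {F : Type} [Field F] {M : ℕ} {K : Type} [Field K] [Algebra F K] {ν : ℕ}
    {y : Fin (M + 1) → K} {e : ℕ} {R : Fin (ν + 1) → MvPolynomial (Fin (M + 1)) F}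
    (h : GenFinite y e R) : Algebra.IsAlgebraic (IntermediateField.adjoin F
      {z | ∃ i j, aeval y (R j) ≠ 0 ∧ z = aeval y (R i) / aeval y (R j)}) K := by
  have h1 : {z | ∃ i j, aeval y (R j) ≠ 0 ∧ z = aeval y (R i) / aeval y (R j)} =
      {z | ∃ i j, z = aeval y (R i) / aeval y (R j)} := by
    ext z
    simp only [Set.mem_ofPred_eq, h.ne, ne_eq, not_false_eq_true, true_and]
  rw [h1]
  exact h.alg

/-- Let `y` be the generic point of the projective variety `X` of dimension `w > 0` over `F`, let the
forms `R_i` of the degree `e` define a rational map of `X` to a projective space which is generically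
finite onto its image, let `D₀` be the divisor `R_0 ⋯ R_ν = 0`, let `D` be the set of the common zeros
on `X` of the forms `Q_0, …, Q_s`, not all of which vanish on `X`, and let `(X, D)` be of logarithmic
general type. There are a form `A` over `F` which does not vanish on `X` and numbers `C` and `μ` such
that
`h(x) ≤ C (d(L) + N^(1)_S(D, x) + min (ρ_S(R(x)), N_{S,<μ}(D₀, x)) + 1)` for all finite extensions `L`
of `F` and all points `x` of `X` over `L` with `A(x) ≠ 0`; and if `D` contains `D₀`, then
`h(x) ≤ C (d(L) + N^(1)_S(D, x) + 1)` for these points. -/
theorem result {k F : Type} [Field k] [IsAlgClosed k] [CharZero k] [Field F] [Algebra k F]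
    [IsFF k F] {M w e ν s : ℕ} {K : Type} [Field K] [Algebra F K] {y : Fin (M + 1) → K}
    (hX : Variety F K w y) (hw : 0 < w)
    {R : Fin (ν + 1) → MvPolynomial (Fin (M + 1)) F} (hR : GenFinite y e R)
    {Q : Fin (s + 1) → MvPolynomial (Fin (M + 1)) F} {q : Fin (s + 1) → ℕ}
    (hQ : ∀ l, (Q l).IsHomogeneous (q l)) (hQ0 : ∃ l, aeval y (Q l) ≠ 0)
    (S : Finset (Place k F)) (hL : LogGeneralType F K w (CentreIn Q q y)) :
    ∃ A : MvPolynomial (Fin (M + 1)) F, IsForm A ∧ aeval y A ≠ 0 ∧ ∃ (C : ℝ) (μ : ℕ),
      ∀ (L : Ext F) [FiniteDimensional F L] (x : Fin (M + 1) → L), Point y x → aeval x A ≠ 0 →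
        height k x ≤ C * (logDisc k L + truncated S Q q x +
          min (osculation S fun i => aeval x (R i))
            (low S (∏ i, R i) ((ν + 1) * e) μ x) + 1) ∧
        (Contains Q q y (∏ i, R i) ((ν + 1) * e) →
          height k x ≤ C * (logDisc k L + truncated S Q q x + 1)) := by
  obtain ⟨A, hA, hA0, C, μ, hC⟩ := N131.FM.fin2con hX.gen hX.ne hR.hom hR.ne hR.alg' hw hQ hQ0 hL S
  refine ⟨A, hA, hA0, C, μ, fun L _ x hx hxA => ?_⟩
  have h1 := hC L x ⟨Function.ne_iff.1 hx.ne, hx.mem⟩ hxA
  have hf : (0 : ℝ) < Module.finrank F L := by
    exact_mod_cast Module.finrank_pos (R := F) (M := L)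
  refine ⟨?_, fun hcon => ?_⟩
  · unfold height logDisc truncated osculation low
    rw [div_le_iff₀ hf, min_div_div_right hf.le]
    refine le_trans h1.1 (le_of_eq ?_)
    field_simp
    rfl
  · unfold height logDisc truncated
    rw [div_le_iff₀ hf]
    refine le_trans (h1.2 hcon) (le_of_eq ?_)
    field_simp
    rfl

end Pool.Agent.Results.MP_4dacf8_ag.NearlyIntegralPoints
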